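import Pool.Agent.U197.GQ.M15
import Pool.Agent.H519R3.RS.LUS

/-!
MP_3029eb_ag: local uniformization, along arbitrary valuations, for all local rings of the quotients
`V / G` of affine spaces `V = k ^ n` (in all dimensions, over every perfect field `k` of
characteristic `p > 0`) by the finite subgroups `G` of `GL_n (k)` for which the stabilizer of every
nonzero vector has order `1` or `p`.

This follows from the resolution of singularities of `V / G` in `Pool.Agent.U197.GQ` (see
`MP_19ffc6_ag.LinearStabilizersOfOrderP`) by the valuative criterion of properness.
-/

set_option autoImplicit false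

open AlgebraicGeometry CategoryTheory MvPolynomial Pool.Agent.H920R2 Pool.Agent.H519R3.RS

namespace Pool.Agent.Results.MP_3029eb_ag.LinearStabilizersOfOrderPLU

section defs

variable {k : Type} [Field k] {n : ℕ}

/-- The substitution `x ↦ g x` in polynomials: `x_i ↦ ∑ j, g_(i, j) x_j`. -/
noncomputable def subst (g : Matrix (Fin n) (Fin n) k) :
    MvPolynomial (Fin n) k →ₐ[k] MvPolynomial (Fin n) k :=
  aeval fun i => ∑ j, C (g i j) * X j

/-- The algebra of the polynomials which are invariant under the group `G` of matrices, the
coordinate ring of the quotient of the affine space of dimension `n` by `G`. -/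
noncomputable def invariants (G : Subgroup (Matrix.GeneralLinearGroup (Fin n) k)) :
    Subalgebra k (MvPolynomial (Fin n) k) where
  carrier := {f | ∀ g ∈ G, subst (g : Matrix (Fin n) (Fin n) k) f = f}
  mul_mem' := fun {a b} ha hb g hg => by rw [map_mul, ha g hg, hb g hg]
  add_mem' := fun {a b} ha hb g hg => by rw [map_add, ha g hg, hb g hg]
  algebraMap_mem' := fun c g _ => AlgHom.commutes _ c

/-- The elements of the group `G` which fix the vector `v`. -/
def Stabilizer (G : Subgroup (Matrix.GeneralLinearGroup (Fin n) k)) (v : Fin n → k) : Type :=
  {g : G // ((g : Matrix.GeneralLinearGroup (Fin n) k) : Matrix (Fin n) (Fin n) k).mulVec v = v}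

end defs

/-- Let `p` be a prime, `k` a perfect field of characteristic `p`, and let `G` be a finite subgroup
of `GL_n (k)` such that the stabilizer of every nonzero vector `v` in `k ^ n` has order `1` or `p`.
Then the local ring of the quotient of the affine space of dimension `n` by `G` at every point, of
arbitrary dimension, admits local uniformization: `R` is the localization of the ring of invariant
polynomials at an arbitrary prime ideal. -/
theorem result (p : ℕ) [Fact p.Prime] (k : Type) [Field k] [CharP k p] [PerfectField k] (n : ℕ)
    (G : Subgroup (Matrix.GeneralLinearGroup (Fin n) k)) [Finite G]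
    (hG : ∀ v : Fin n → k, v ≠ 0 →
      Nat.card (Stabilizer G v) = 1 ∨ Nat.card (Stabilizer G v) = p)
    (P : Ideal (invariants G)) [P.IsPrime] (R : Type) [CommRing R] [IsLocalRing R]
    [Algebra (invariants G) R] [IsLocalization.AtPrime R P] : AdmitsLU R := by
  have h : HasResolution (X := Spec (CommRingCat.of (invariants G)))
      (Spec.map (CommRingCat.ofHom (algebraMap k (invariants G)))) :=
    (Pool.Agent.U197.GQ.lin_main G hG (invariants G) fun _ => Iff.rfl).2
  exact admitsLU_of_res h P R

end Pool.Agent.Results.MP_3029eb_ag.LinearStabilizersOfOrderPLU
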