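import Pool.Agent.U186.DropMinors
import Pool.Agent.W558.WT.LU

/-!
MP_3029eb_ag: local uniformization of all the local rings, at all valuations, of the irreducible
components of the loci where the rank of an `a × b`-matrix `M + ∑ e, t e ^ m e • u e ⊗ v e` drops, in
affine spaces over perfect fields of characteristic `p` and over affine surfaces, in every dimension.

The proof. At the generic point of such a component the kernel is a line, generated by a vector `w`
with a coordinate one, and its coordinates and the elements `t e ^ m e * (v e ⬝ w)` satisfy only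
linear relations (`Pool.Agent.U186.RD.alg_indep`). So the `t e ^ m e` are quotients of linear forms,
and the starting library (products of linear forms over surfaces, W558, W418) gives smooth charts
over the component which dominate its local rings, and on one of which the valuation has a centre.
-/

set_option autoImplicit false

open AlgebraicGeometry CategoryTheory Pool.Agent.W558 MvPolynomial

namespace Pool.Agent.Results.MP_3029eb_ag.RankDropLociLU

/-- The `a × b` matrix `M + ∑ e, t e ^ m e • u e ⊗ v e` over the polynomial ring over `R` in the
variables `t 0, ..., t (N - 1)`. -/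
noncomputable def pencil {R : Type} [CommRing R] {a b N : ℕ} (M : Matrix (Fin a) (Fin b) R)
    (u : Fin N → Fin a → R) (v : Fin N → Fin b → R) (m : Fin N → ℕ) :
    Matrix (Fin a) (Fin b) (MvPolynomial (Fin N) R) :=
  Matrix.of fun i j => C (M i j) + ∑ e, C (u e i * v e j) * X e ^ m e

/-- The ideal generated by the minors of maximal size `min a b`. Its zeros are the points at which
the rank is less than `min a b`. -/
noncomputable def maximalMinors {S : Type} [CommRing S] {a b : ℕ}
    (A : Matrix (Fin a) (Fin b) S) : Ideal S :=
  Ideal.span (Set.range fun q : (Fin (min a b) → Fin a) × (Fin (min a b) → Fin b) =>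
    (A.submatrix q.1 q.2).det)

/-- The local domain `R` admits local uniformization: for every valuation ring `V` of the fraction
field `K` of `R` centred on `R` there is a finitely generated `R`-algebra `B` in `V` whose
localization at the centre `P` of `V` is regular. -/
def AdmitsLocalUniformization (R : Type) [CommRing R] : Prop :=
  ∀ (K : Type) [Field K] [Algebra R K] [IsFractionRing R K] (V : ValuationSubring K),
    (∀ r : R, algebraMap R K r ∈ V) →
    (∀ r : R, r ∈ nonunits R ↔ V.valuation (algebraMap R K r) < 1) →
    ∃ B : Subalgebra R K, B.FG ∧ (∀ b : B, (b : K) ∈ V) ∧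
      ∃ P : Ideal B, ∃ (_ : P.IsPrime),
        (∀ b : B, b ∈ P ↔ V.valuation (b : K) < 1) ∧
        IsRegularLocalRing (Localization.AtPrime P)

/-- Let `k` be a perfect field of characteristic `p`, and let `R₀` be a finitely generated
`k`-algebra, a domain with the field of fractions `E`. Suppose that `R₀ = E = k`, or that `E` is the
function field of a smooth projective surface over `k` (`HasModel`), or that `E` has log smooth
projective models (`HasLogModels`). Let `M` be an `a × b` matrix over `R₀`, let `u e`, `v e` be
vectors over `R₀` and `m e` integers prime to `p`, such that the matrix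
`M + ∑ e, t e ^ m e • u e ⊗ v e` over `R₀[t 0, ..., t (N - 1)]` has the maximal rank `min a b`. Let
`P` be the prime ideal of an irreducible component of the closed subset of `Spec R₀ × 𝔸^N` at which
its rank is less than `min a b`, such that the component dominates `Spec R₀` (no condition if
`R₀ = k`). Then the local ring `R` of the component at any point admits local uniformization. -/
theorem result (p : ℕ) [Fact p.Prime] (k R₀ E : Type) [Field k] [PerfectField k] [CharP k p]
    [CommRing R₀] [IsDomain R₀] [Algebra k R₀] [Algebra.FiniteType k R₀] [Field E] [Algebra k E]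
    [Algebra R₀ E] [IsScalarTower k R₀ E] [IsFractionRing R₀ E]
    (hE : Function.Surjective (algebraMap k E) ∨ (Algebra.trdeg k E = 2 ∧ HasModel k E) ∨
      HasLogModels k E)
    {a b N : ℕ} (M : Matrix (Fin a) (Fin b) R₀) (u : Fin N → Fin a → R₀) (v : Fin N → Fin b → R₀)
    (m : Fin N → ℕ) (hm : ∀ e, ¬ p ∣ m e) (h0 : maximalMinors (pencil M u v m) ≠ ⊥)
    (P : Ideal (MvPolynomial (Fin N) R₀)) (hP : P ∈ (maximalMinors (pencil M u v m)).minimalPrimes)
    (hPR : P.comap (C : R₀ →+* MvPolynomial (Fin N) R₀) = ⊥)
    (q : Ideal (MvPolynomial (Fin N) R₀ ⧸ P)) [q.IsPrime] (R : Type) [CommRing R]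
    [Algebra (MvPolynomial (Fin N) R₀ ⧸ P) R] [IsLocalization.AtPrime R q] :
    AdmitsLocalUniformization R := by
  have hE' : (Algebra.trdeg k E = 2 ∧ HasModel k E) ∨ HasLogModels k E := by
    rcases hE with h | h | h
    · exact Or.inr (Pool.Agent.U186.RO.hasLogModels_of_surjective k E h)
    · exact Or.inl h
    · exact Or.inr h
  have hPp : P.IsPrime := hP.1.1
  obtain ⟨K, _, _, _, _, _, T, I, _, _, ⟨L⟩⟩ := Pool.Agent.U186.RD.drop_LM' p k R₀ E hE' M u v m hm
    h0 P hP hPR
  intro K' _ _ _ W hV1 hV2
  have hR : IsLocalRing R := IsLocalization.AtPrime.isLocalRing R q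
  obtain ⟨B', h1, h2, P', hP', h3, h4, h5⟩ := Pool.Agent.W558.WT.uniformized_of_LM2 L q (R := R)
    (K := K') W hV1 (fun r => (IsLocalRing.mem_maximalIdeal r).trans (hV2 r))
  exact ⟨B', h1, h2, P', hP', h3, (IsRegularLocalRing.iff_finrank_cotangentSpace _).2 h5.symm⟩

end Pool.Agent.Results.MP_3029eb_ag.RankDropLociLU
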